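import Mathlib

/-!
# MP_11d8b4_co: a consistent path system simply induced by real, but by no positive, edge weights

The graph has the vertices `0, ..., 6` and the nine edges
`04, 14, 25, 35, 45, 06, 16, 26, 36`; the real weights are
`4, 5, 7, 7, -4, 3, 4, 6, 6` in this order.
-/

namespace Pool.Agent.Results.MP_11d8b4_co.RealNotPositive

/-- `l` is a simple path of `G` from `u` to `v`: a list of pairwise distinct vertices whose first
entry is `u`, whose last entry is `v` and whose consecutive entries are adjacent. -/
def IsPath {V : Type*} (G : SimpleGraph V) (l : List V) (u v : V) : Prop :=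
  l.head? = some u ∧ l.getLast? = some v ∧ l.Nodup ∧ l.IsChain G.Adj

/-- A path system on `G`: one simple path `P_{u,v} = P_{v,u}` for every pair of distinct
vertices (the value `path u u` is irrelevant). -/
structure PathSystem {V : Type*} (G : SimpleGraph V) where
  path : V → V → List V
  isPath : ∀ u v, u ≠ v → IsPath G (path u v) u v
  symm : ∀ u v, u ≠ v → path v u = (path u v).reverse

/-- Consistency: if `x` is the `i`-th and `y` the `j`-th vertex of `P_{u,v}` with `i < j`, then
`P_{x,y}` is the subpath of `P_{u,v}` between `x` and `y`. -/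
def PathSystem.Consistent {V : Type*} {G : SimpleGraph V} (P : PathSystem G) : Prop :=
  ∀ u v, u ≠ v → ∀ (i j : ℕ) (x y : V), i < j → (P.path u v)[i]? = some x →
    (P.path u v)[j]? = some y → P.path x y = ((P.path u v).drop i).take (j + 1 - i)

/-- The weight of a path: the sum of the weights of its edges. -/
def weight {V R : Type*} [Zero R] [Add R] (w : Sym2 V → R) : List V → R
  | a :: b :: l => w s(a, b) + weight w (b :: l)
  | _ => 0

/-- `w` simply induces `P`: for all distinct `u, v` the path `P_{u,v}` has smaller weight than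
every other simple path from `u` to `v`. -/
def PathSystem.SimplyInducedBy {V : Type*} {G : SimpleGraph V} (P : PathSystem G)
    (w : Sym2 V → ℝ) : Prop :=
  ∀ u v, u ≠ v → ∀ q, IsPath G q u v → q ≠ P.path u v → weight w (P.path u v) < weight w q

/-- Adjacency of the counterexample, as a table. -/
def adj (a b : Fin 7) : Bool :=
  (a, b) ∈ ([(0, 4), (1, 4), (2, 5), (3, 5), (4, 5), (0, 6), (1, 6), (2, 6), (3, 6),
    (4, 0), (4, 1), (5, 2), (5, 3), (5, 4), (6, 0), (6, 1), (6, 2), (6, 3)] :
      List (Fin 7 × Fin 7))

theorem adj_symm : ∀ a b, adj a b = adj b a := by decide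
theorem adj_irrefl : ∀ a, adj a a = false := by decide

/-- The graph of the counterexample. -/
def G7 : SimpleGraph (Fin 7) where
  Adj a b := adj a b = true
  symm := ⟨fun a b h => by rw [adj_symm b a]; exact h⟩
  loopless := ⟨fun a h => by simp [adj_irrefl] at h⟩

instance : DecidableRel G7.Adj := fun a b => inferInstanceAs (Decidable (adj a b = true))

/-- The paths of the counterexample. -/
def pth (u v : Fin 7) : List (Fin 7) :=
  match u.val, v.val with
  | 0, 1 => [0, 6, 1]
  | 1, 0 => [1, 6, 0]
  | 0, 2 => [0, 4, 5, 2]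
  | 2, 0 => [2, 5, 4, 0]
  | 0, 3 => [0, 4, 5, 3]
  | 3, 0 => [3, 5, 4, 0]
  | 0, 5 => [0, 4, 5]
  | 5, 0 => [5, 4, 0]
  | 1, 2 => [1, 4, 5, 2]
  | 2, 1 => [2, 5, 4, 1]
  | 1, 3 => [1, 4, 5, 3]
  | 3, 1 => [3, 5, 4, 1]
  | 1, 5 => [1, 4, 5]
  | 5, 1 => [5, 4, 1]
  | 2, 3 => [2, 6, 3]
  | 3, 2 => [3, 6, 2]
  | 2, 4 => [2, 5, 4]
  | 4, 2 => [4, 5, 2]
  | 3, 4 => [3, 5, 4]
  | 4, 3 => [4, 5, 3]
  | 4, 6 => [4, 0, 6]
  | 6, 4 => [6, 0, 4]
  | 5, 6 => [5, 4, 0, 6]
  | 6, 5 => [6, 0, 4, 5]
  | _, _ => [u, v]

instance (l : List (Fin 7)) (u v : Fin 7) : Decidable (IsPath G7 l u v) := by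
  unfold IsPath; infer_instance

/-- The path system of the counterexample. -/
def P7 : PathSystem G7 where
  path := pth
  isPath := by decide
  symm := by decide

theorem G7_connected : G7.Connected := by
  have : Nonempty (Fin 7) := ⟨0⟩
  refine ⟨fun u v => ?_⟩
  have h : ∀ u : Fin 7, G7.Reachable 6 u := by
    have h0 : G7.Adj 6 0 := by decide
    have h1 : G7.Adj 6 1 := by decide
    have h2 : G7.Adj 6 2 := by decide
    have h3 : G7.Adj 6 3 := by decide
    have h4 : G7.Adj 0 4 := by decide
    have h5 : G7.Adj 2 5 := by decide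
    intro u
    fin_cases u
    · exact h0.reachable
    · exact h1.reachable
    · exact h2.reachable
    · exact h3.reachable
    · exact h0.reachable.trans h4.reachable
    · exact h2.reachable.trans h5.reachable
    · exact SimpleGraph.Reachable.refl _
  exact (h u).symm.trans (h v)

theorem pth_length : ∀ u v : Fin 7, (pth u v).length ≤ 4 := by decide

theorem pth_consistent : ∀ u v : Fin 7, u ≠ v → ∀ i j : Fin 4, i < j →
    ∀ x ∈ (pth u v)[i.val]?, ∀ y ∈ (pth u v)[j.val]?,
      pth x y = ((pth u v).drop i).take (j + 1 - i) := by decide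

theorem P7_consistent : P7.Consistent := by
  intro u v huv i j x y hij hx hy
  have hj : j < (pth u v).length := (List.getElem?_eq_some_iff.1 hy).1
  have h4 := pth_length u v
  exact pth_consistent u v huv ⟨i, by omega⟩ ⟨j, by omega⟩ hij x hx y hy

/-- All simple paths starting with `u`, avoiding the list `vis`, with at most `k` edges. -/
def gen : ℕ → Fin 7 → List (Fin 7) → List (List (Fin 7))
  | 0, u, _ => [[u]]
  | k + 1, u, vis =>
      [u] :: ((List.finRange 7).filter (fun x => adj u x && decide (x ∉ u :: vis))).flatMap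
        (fun x => (gen k x (u :: vis)).map (fun q => u :: q))

theorem mem_gen : ∀ (k : ℕ) (u : Fin 7) (vis t : List (Fin 7)), t.length ≤ k →
    (u :: t).IsChain G7.Adj → (u :: t).Nodup → (∀ x ∈ t, x ∉ vis) → u :: t ∈ gen k u vis := by
  intro k
  induction k with
  | zero =>
      intro u vis t ht _ _ _
      have : t = [] := List.length_eq_zero_iff.1 (by omega)
      subst this
      simp [gen]
  | succ k ih =>
      intro u vis t ht hc hn hv
      cases t with
      | nil => simp [gen]
      | cons x t =>
          have hc2 : G7.Adj u x ∧ (x :: t).IsChain G7.Adj := by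
            simpa [List.isChain_cons_cons] using hc
          have hn2 : u ∉ x :: t ∧ (x :: t).Nodup := List.nodup_cons.1 hn
          have hx : x ∉ u :: vis := by
            intro h
            rcases List.mem_cons.1 h with h | h
            · exact hn2.1 (by rw [← h]; exact List.mem_cons_self)
            · exact hv x List.mem_cons_self h
          have hmem := ih x (u :: vis) t (by simpa using ht) hc2.2 hn2.2 (by
            intro y hy h
            rcases List.mem_cons.1 h with h | h
            · exact hn2.1 (by rw [← h]; exact List.mem_cons_of_mem _ hy)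
            · exact hv y (List.mem_cons_of_mem _ hy) h)
          have hax : adj u x = true := hc2.1
          refine List.mem_cons_of_mem _ (List.mem_flatMap.2 ⟨x, ?_, ?_⟩)
          · simp only [List.mem_filter, List.mem_finRange, true_and, Bool.and_eq_true,
              decide_eq_true_eq]
            exact ⟨hax, hx⟩
          · exact List.mem_map.2 ⟨x :: t, hmem, rfl⟩

/-- The integer weights of the counterexample, as a function of two vertices. -/
def wt (a b : Fin 7) : ℤ :=
  match min a.val b.val, max a.val b.val with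
  | 0, 4 => 4
  | 1, 4 => 5
  | 2, 5 => 7
  | 3, 5 => 7
  | 4, 5 => -4
  | 0, 6 => 3
  | 1, 6 => 4
  | 2, 6 => 6
  | 3, 6 => 6
  | _, _ => 0

/-- Weight of a list of vertices with respect to `wt`. -/
def lw : List (Fin 7) → ℤ
  | a :: b :: l => wt a b + lw (b :: l)
  | _ => 0

theorem table : ∀ u v : Fin 7, u ≠ v → ∀ q ∈ gen 6 u [], q.getLast? = some v → q ≠ pth u v →
    lw (pth u v) < lw q := by decide

theorem wt_symm (a b : Fin 7) : wt a b = wt b a := by
  unfold wt
  rw [min_comm, max_comm]

/-- The real weights of the counterexample. -/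
noncomputable def wR : Sym2 (Fin 7) → ℝ :=
  Sym2.lift ⟨fun a b => (wt a b : ℝ), fun a b => by simp only [wt_symm a b]⟩

theorem weight_wR (l : List (Fin 7)) : weight wR l = (lw l : ℝ) := by
  induction l with
  | nil => simp [weight, lw]
  | cons a l ih =>
      cases l with
      | nil => simp [weight, lw]
      | cons b l =>
          simp only [weight, lw, Int.cast_add, ih]
          rfl

theorem P7_real : P7.SimplyInducedBy wR := by
  rintro u v huv q ⟨hh, hl, hn, hc⟩ hne
  rw [weight_wR, weight_wR, Int.cast_lt]
  cases q with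
  | nil => simp at hh
  | cons a t =>
      have hau : a = u := by simpa using hh
      subst hau
      have hlen : (a :: t).length ≤ 7 := by
        have h7 := hn.length_le_card
        rwa [Fintype.card_fin] at h7
      have hlen2 : t.length ≤ 6 := by
        rw [List.length_cons] at hlen
        omega
      exact table a v huv (a :: t) (mem_gen 6 a [] t hlen2 hc hn (by simp)) hl hne

theorem P7_not_positive (w : Sym2 (Fin 7) → ℝ) (hw : ∀ e ∈ G7.edgeSet, 0 < w e) :
    ¬ P7.SimplyInducedBy w := by
  intro h
  have e1 := h 0 1 (by decide) [0, 4, 1] (by decide) (by decide)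
  have e2 := h 2 3 (by decide) [2, 5, 3] (by decide) (by decide)
  have e3 := h 0 2 (by decide) [0, 6, 2] (by decide) (by decide)
  have e4 := h 1 3 (by decide) [1, 6, 3] (by decide) (by decide)
  have p1 : P7.path 0 1 = [0, 6, 1] := rfl
  have p2 : P7.path 2 3 = [2, 6, 3] := rfl
  have p3 : P7.path 0 2 = [0, 4, 5, 2] := rfl
  have p4 : P7.path 1 3 = [1, 4, 5, 3] := rfl
  rw [p1] at e1
  rw [p2] at e2
  rw [p3] at e3
  rw [p4] at e4
  simp only [weight] at e1 e2 e3 e4
  have h45 : 0 < w s(4, 5) := hw _ (by rw [SimpleGraph.mem_edgeSet]; decide)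
  have s1 : w s(6, 1) = w s(1, 6) := by rw [Sym2.eq_swap]
  have s2 : w s(4, 1) = w s(1, 4) := by rw [Sym2.eq_swap]
  have s3 : w s(6, 3) = w s(3, 6) := by rw [Sym2.eq_swap]
  have s4 : w s(5, 3) = w s(3, 5) := by rw [Sym2.eq_swap]
  have s5 : w s(5, 2) = w s(2, 5) := by rw [Sym2.eq_swap]
  have s6 : w s(6, 2) = w s(2, 6) := by rw [Sym2.eq_swap]
  linarith

/-- **Negative answer to Q1.** A consistent path system on a finite connected graph that is simply
induced by some real-valued edge weights need not be simply induced by positive edge weights. -/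
theorem result : ¬ ∀ (n : ℕ) (G : SimpleGraph (Fin n)) (P : PathSystem G), G.Connected →
    P.Consistent → (∃ w : Sym2 (Fin n) → ℝ, P.SimplyInducedBy w) →
      ∃ w : Sym2 (Fin n) → ℝ, (∀ e ∈ G.edgeSet, 0 < w e) ∧ P.SimplyInducedBy w := by
  intro h
  obtain ⟨w, hw, hP⟩ := h 7 G7 P7 G7_connected P7_consistent ⟨wR, P7_real⟩
  exact P7_not_positive w hw hP

end Pool.Agent.Results.MP_11d8b4_co.RealNotPositive
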